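import Pool.Agent.Helper20.QP.St3
import Pool.Agent.Helper71.TU.X5aux

set_option autoImplicit false

open Filter Topology Matrix Set Metric MeasureTheory
open scoped ComplexConjugate ENNReal

namespace Pool.Agent.Helper22.QP

open Pool.Agent.Helper35.PM (hs Mat SL IsDiscrete SurfaceGroup Adapted IsQF HolDisc pressureDist)
open Pool.Agent.Helper20.QD Pool.Agent.Helper20.QP
open Pool.Agent.Helper68.QC (nq Bel InvB Intw Sol)

private theorem per_int (hSUB : StSUB) (Γ : Type) [Group Γ] (σ : Γ →* SL) (α : Γ) (l : ℝ) (q : ℂ → ℂ)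
    (hF : Fuch σ) (hS : SC (σ α) l q) (n : ℤ) : ∀ w ∈ Sm (Real.pi / l), q (w + n) = mob (σ (α ^ n)) (q w) := by
  obtain ⟨h1, h2, h3, h4, h5, h6⟩ := hSUB
  have hmem : ∀ (n : ℤ), ∀ w ∈ Sm (Real.pi / l), w + n ∈ Sm (Real.pi / l) := by
    intro n w hw
    obtain ⟨hw1, hw2⟩ := hw
    refine ⟨?_, ?_⟩
    · simpa using hw1
    · simpa using hw2
  have hqD : ∀ w ∈ Sm (Real.pi / l), q w ∈ DD := fun w hw => ball_subset_closedBall (hS.bij.mapsTo hw)
  induction n using Int.induction_on with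
  | zero =>
    intro w hw
    simp [mob]
  | succ n ih =>
    intro w hw
    have e1 : w + ((n + 1 : ℤ) : ℂ) = (w + ((n : ℤ) : ℂ)) + 1 := by push_cast; ring
    rw [e1, hS.per _ (hmem n w hw), ih w hw]
    have e2 := (h4 (σ α) (σ (α ^ (n : ℤ))) (q w) ((h1 _ (hF.su _)).2.1 _ (hqD w hw))).1
    rw [← e2, ← map_mul]
    congr 2
    rw [add_comm, _root_.zpow_add, zpow_one]
  | pred n ih =>
    intro w hw
    have e1 : w + ((-(n : ℤ)) : ℤ) = (w + ((-(n : ℤ) - 1 : ℤ) : ℂ)) + 1 := by push_cast; ring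
    have e3 := ih w hw
    rw [e1, hS.per _ (hmem _ w hw)] at e3
    have e4 := (h1 _ (hF.su α)).2.2.2.2 _ (hqD _ (hmem (-(n : ℤ) - 1) w hw))
    rw [e3] at e4
    have e2 := (h4 (σ α)⁻¹ (σ (α ^ (-(n : ℤ)))) (q w) ((h1 _ (hF.su _)).2.1 _ (hqD w hw))).1
    rw [← e4, ← e2, ← map_inv, ← map_mul]
    congr 2
    rw [sub_eq_add_neg, add_comm, _root_.zpow_add, _root_.zpow_neg_one]

theorem hCFI (hSUB : StSUB) (_hMET : StMET) (hQCNF : StQCNF) : StCFI := by
  intro Γ _ σ σ' α l a k1 q μs hF hS ha hB hk1 hint hD hmu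
  have hper := per_int hSUB Γ σ α l q hF hS
  obtain ⟨h1, h2, h3, h4, h5, h6⟩ := hSUB
  set S : Set ℂ := {w | a ≤ w.im ∧ w.im ≤ Real.pi / l - a} with hSd
  have hSsub : S ⊆ Sm (Real.pi / l) := fun w hw => ⟨lt_of_lt_of_le ha hw.1, by linarith [hw.2]⟩
  set Rc : Set ℂ := Icc (0 : ℝ) 1 ×ℂ Icc a (Real.pi / l - a) with hRc
  have hRcS : Rc ⊆ S := by
    intro w hw
    rw [hRc, Complex.mem_reProdIm] at hw
    exact ⟨hw.2.1, hw.2.2⟩
  have hRcc : IsCompact Rc := isCompact_Icc.reProdIm isCompact_Icc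
  have hqc : ContinuousOn q (Sm (Real.pi / l)) := hS.hol.continuousOn
  set K : Set ℂ := q '' Rc with hK
  have hKc : IsCompact K := hRcc.image_of_continuousOn (hqc.mono (hRcS.trans hSsub))
  have hKS : K ⊆ q '' S := image_mono hRcS
  have hSD : q '' S ⊆ D := by
    rintro _ ⟨w, hw, rfl⟩
    exact hS.bij.mapsTo (hSsub hw)
  have hKD : K ⊆ D := hKS.trans hSD
  have hmove : ∀ (γ : Γ), ∀ x ∈ q '' S, ∃ γ' : Γ, ∃ y ∈ K, mob (σ γ) x = mob (σ γ') y := by
    rintro γ _ ⟨w, hw, rfl⟩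
    set w' : ℂ := w + ((-⌊w.re⌋ : ℤ) : ℂ) with hw'
    have hw'r : w' ∈ Rc := by
      rw [hRc, Complex.mem_reProdIm]
      refine ⟨⟨?_, ?_⟩, ?_, ?_⟩
      · rw [hw']
        simp only [Complex.add_re, Complex.intCast_re]
        push_cast
        linarith [Int.floor_le w.re]
      · rw [hw']
        simp only [Complex.add_re, Complex.intCast_re]
        push_cast
        linarith [Int.lt_floor_add_one w.re]
      · rw [hw']
        simpa using hw.1
      · rw [hw']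
        simpa using hw.2
    have hw'S : w' ∈ Sm (Real.pi / l) := hSsub (hRcS hw'r)
    have e1 : w = w' + ((⌊w.re⌋ : ℤ) : ℂ) := by
      rw [hw']
      push_cast
      ring
    refine ⟨γ * α ^ ⌊w.re⌋, q w', ⟨w', hw'r, rfl⟩, ?_⟩
    have e2 := hper ⌊w.re⌋ w' hw'S
    rw [← e1] at e2
    rw [e2, map_mul]
    exact (h4 (σ γ) (σ (α ^ ⌊w.re⌋)) (q w') ((h1 _ (hF.su _)).2.1 _
      (ball_subset_closedBall (hS.bij.mapsTo hw'S)))).1.symm
  set O : Set ℂ := D \ ⋃ γ : Γ, mob (σ γ) '' (q '' S) with hO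
  have hOo : IsOpen O := by
    rw [isOpen_iff_forall_mem_open]
    intro z hz
    obtain ⟨hzD, hzX⟩ := hz
    have hzn : ‖z‖ < 1 := by simpa using hzD
    obtain ⟨r, hr1, hrK⟩ : ∃ r : ℝ, r < 1 ∧ ∀ y ∈ K, ‖y‖ ≤ r := by
      rcases K.eq_empty_or_nonempty with h | h
      · refine ⟨0, by norm_num, fun y hy => ?_⟩
        rw [h] at hy
        exact absurd hy (notMem_empty y)
      · obtain ⟨y0, hy0, hmax⟩ := hKc.exists_isMaxOn h continuous_norm.continuousOn
        refine ⟨‖y0‖, by simpa using hKD hy0, fun y hy => hmax hy⟩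
    obtain ⟨R, hR1, hR2⟩ := exists_between (max_lt hr1 hzn)
    have hrR : r < R := lt_of_le_of_lt (le_max_left _ _) hR1
    have hzR : ‖z‖ < R := lt_of_le_of_lt (le_max_right _ _) hR1
    set Fi : Set Γ := {γ : Γ | hs (σ γ : Mat) ≤ 8 / (1 - R) ^ 3} with hFi
    have hFin : Fi.Finite := hF.discrete _
    have hcl : ∀ γ : Γ, IsClosed (mob (σ γ) '' K) := by
      intro γ
      apply IsCompact.isClosed
      apply hKc.image_of_continuousOn
      intro y hy
      have hd := (h1 _ (hF.su γ)).2.1 y (ball_subset_closedBall (hKD hy))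
      exact (h5 (σ γ) y hd).continuousAt.continuousWithinAt
    refine ⟨ball 0 R \ ⋃ γ ∈ Fi, mob (σ γ) '' K, ?_, ?_, ?_, ?_⟩
    · rintro v ⟨hvR, hvX⟩
      have hvn : ‖v‖ < R := by simpa using hvR
      refine ⟨by simpa using hvn.trans hR2, ?_⟩
      intro hv
      obtain ⟨γ, hv⟩ := mem_iUnion.1 hv
      obtain ⟨x, hx, hxv⟩ := hv
      obtain ⟨γ', y, hy, hxy⟩ := hmove γ x hx
      apply hvX
      rw [mem_iUnion₂]
      refine ⟨γ', ?_, y, hy, by rw [← hxy, hxv]⟩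
      apply h6 (σ γ') y R (hF.su γ') hR2 ((hrK y hy).trans hrR.le)
      rw [← hxy, hxv]
      exact hvn.le
    · exact isOpen_ball.sdiff (hFin.isClosed_biUnion fun γ _ => hcl γ)
    · simpa using hzR
    · intro hz'
      apply hzX
      obtain ⟨γ, -, hz'⟩ := mem_iUnion₂.1 hz'
      exact mem_iUnion.2 ⟨γ, image_mono hKS hz'⟩
  have hWd : DifferentiableOn ℂ (nq μs) O := by
    apply hQCNF k1 hk1 μs hB O hOo
    apply (ae_restrict_iff' hOo.measurableSet).2
    apply Filter.Eventually.of_forall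
    intro z hz
    apply hmu z hz.1
    intro γ hγ
    exact hz.2 (mem_iUnion.2 ⟨γ, hγ⟩)
  intro z' hz'
  obtain ⟨hzD, hzX⟩ := hz'
  set z : ℂ := (nq μs).symm z' with hz
  have hWz : nq μs z = z' := (nq μs).apply_symm_apply z'
  have hz1 : z ∈ D := by
    have : ‖nq μs z‖ < 1 := by
      rw [hWz]
      simpa using hzD
    simpa using (hD z).1 this
  have hzO : z ∈ O := by
    refine ⟨hz1, ?_⟩
    intro hzm
    obtain ⟨γ, hzm⟩ := mem_iUnion.1 hzm
    obtain ⟨x, hx, hxz⟩ := hzm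
    apply hzX
    refine mem_iUnion.2 ⟨γ, nq μs x, ⟨x, hx, rfl⟩, ?_⟩
    have hden : den (σ γ) x ≠ 0 := (h1 _ (hF.su γ)).2.1 x (ball_subset_closedBall (hSD hx))
    have e1 : nq μs (mob (σ γ) x) = mob (σ' γ) (nq μs x) := (hint γ).2.1 x hden
    rw [← e1, hxz, hWz]
  have hinj : InjOn (nq μs) O := fun x _ y _ h => (nq μs).injective h
  have hne : deriv (nq μs) z ≠ 0 := Pool.TU.X5.deriv_ne_zero_of_injOn hOo hWd hinj hzO
  have hda : HasDerivAt (nq μs) (deriv (nq μs) z) z := (hWd.differentiableAt (hOo.mem_nhds hzO)).hasDerivAt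
  have hfin : HasDerivAt (nq μs).symm (deriv (nq μs) z)⁻¹ z' := by
    apply HasDerivAt.of_local_left_inverse (f := nq μs)
    · exact (nq μs).symm.continuous.continuousAt
    · exact hda
    · exact hne
    · exact Filter.Eventually.of_forall fun y => (nq μs).apply_symm_apply y
  exact hfin.differentiableAt.differentiableWithinAt

end Pool.Agent.Helper22.QP
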